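import Mathlib

open scoped ComplexConjugate
open Finset Polynomial

namespace Pool.Agent.H398R3.Hilb

lemma sum_root_pow {N : ℕ} {ζ : ℂ} (hζ : IsPrimitiveRoot ζ N) (hN : N ≠ 0) {i j : ℕ}
    (hi : i < N) (hj : j < N) :
    ∑ m ∈ range N, conj ((ζ ^ m) ^ i) * (ζ ^ m) ^ j = if i = j then (N : ℂ) else 0 := by
  have hnorm : ‖ζ‖ = 1 := hζ.norm'_eq_one hN
  have hconj : conj ζ * ζ = 1 := by
    rw [mul_comm, Complex.mul_conj, Complex.normSq_eq_norm_sq, hnorm]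
    norm_num
  have hc : conj ζ = ζ⁻¹ := eq_inv_of_mul_eq_one_left hconj
  have hz : ζ ≠ 0 := hζ.ne_zero hN
  have key : ∀ m ∈ range N, conj ((ζ ^ m) ^ i) * (ζ ^ m) ^ j = (ζ ^ (N - i + j)) ^ m := by
    intro m _
    have h1 : ζ ^ (N - i + j) = ζ⁻¹ ^ i * ζ ^ j := by
      rw [pow_add, pow_sub₀ ζ hz hi.le, hζ.pow_eq_one]
      simp
    rw [h1, map_pow, map_pow, hc, mul_pow, ← pow_mul, ← pow_mul, ← pow_mul, ← pow_mul,
      mul_comm m i, mul_comm m j]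
  rw [sum_congr rfl key]
  split_ifs with h
  · subst h
    have : N - i + i = N := by omega
    rw [this, hζ.pow_eq_one]
    simp
  · have hne : ζ ^ (N - i + j) ≠ 1 := by
      intro h1
      have hdvd := hζ.dvd_of_pow_eq_one _ h1
      obtain ⟨c, hc⟩ := hdvd
      have : c = 1 := by
        rcases Nat.lt_or_ge c 2 with h2 | h2
        · interval_cases c
          · omega
          · rfl
        · exfalso
          have : N * 2 ≤ N * c := Nat.mul_le_mul_left _ h2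
          omega
      subst this
      omega
    rw [geom_sum_eq hne, ← pow_mul, mul_comm, pow_mul, hζ.pow_eq_one, one_pow, sub_self, zero_div]

lemma sum_norm_sq {N : ℕ} {ζ : ℂ} (hζ : IsPrimitiveRoot ζ N) (hN : N ≠ 0) (F : ℂ[X])
    (hF : F.natDegree < N) (r : ℝ) :
    ∑ m ∈ range N, ‖F.eval ((r : ℂ) * ζ ^ m)‖ ^ 2 =
      N * ∑ j ∈ range N, r ^ (2 * j) * ‖F.coeff j‖ ^ 2 := by
  have h : ((∑ m ∈ range N, ‖F.eval ((r : ℂ) * ζ ^ m)‖ ^ 2 : ℝ) : ℂ) =
      ((N * ∑ j ∈ range N, r ^ (2 * j) * ‖F.coeff j‖ ^ 2 : ℝ) : ℂ) := by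
    push_cast
    have h1 : ∀ m ∈ range N, ((‖F.eval ((r : ℂ) * ζ ^ m)‖ : ℂ)) ^ 2 =
        ∑ i ∈ range N, ∑ j ∈ range N, (conj (F.coeff i) * F.coeff j * (r : ℂ) ^ (i + j)) *
          (conj ((ζ ^ m) ^ i) * (ζ ^ m) ^ j) := by
      intro m _
      have h2 : ((‖F.eval ((r : ℂ) * ζ ^ m)‖ : ℂ)) ^ 2 =
          conj (F.eval ((r : ℂ) * ζ ^ m)) * F.eval ((r : ℂ) * ζ ^ m) := by
        rw [← Complex.normSq_eq_conj_mul_self, Complex.normSq_eq_norm_sq]
        push_cast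
        rfl
      rw [h2, eval_eq_sum_range' hF, map_sum, sum_mul_sum]
      refine sum_congr rfl fun i _ => sum_congr rfl fun j _ => ?_
      rw [map_mul, mul_pow, mul_pow, map_mul, map_pow, Complex.conj_ofReal]
      ring
    rw [sum_congr rfl h1, sum_comm]
    rw [mul_sum]
    refine sum_congr rfl fun i hi => ?_
    rw [sum_comm]
    have h3 : ∀ j ∈ range N, ∑ m ∈ range N, (conj (F.coeff i) * F.coeff j * (r : ℂ) ^ (i + j)) *
          (conj ((ζ ^ m) ^ i) * (ζ ^ m) ^ j) = if i = j then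
            (N : ℂ) * (r ^ (2 * i) * (‖F.coeff i‖ : ℂ) ^ 2) else 0 := by
      intro j hj
      rw [← mul_sum, sum_root_pow hζ hN (mem_range.1 hi) (mem_range.1 hj)]
      split_ifs with h
      · subst h
        have h2 : ((‖F.coeff i‖ : ℂ)) ^ 2 = conj (F.coeff i) * F.coeff i := by
          rw [← Complex.normSq_eq_conj_mul_self, Complex.normSq_eq_norm_sq]
          push_cast
          rfl
        rw [h2, two_mul]
        ring
      · simp
    rw [sum_congr rfl h3, sum_ite_eq, if_pos hi]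
  exact_mod_cast h

/-- The basic inequality. -/
lemma two_coeff (F G : ℂ[X]) {r B : ℝ}
    (h : ∀ z : ℂ, ‖z‖ = |r| → ‖F.eval z‖ ^ 2 + ‖G.eval z‖ ^ 2 ≤ B) (β : ℂ) :
    ‖F.coeff 0‖ ^ 2 + ‖G.coeff 0‖ ^ 2 +
      r ^ 2 * (‖F.coeff 1 + β * F.coeff 0‖ ^ 2 + ‖G.coeff 1 + β * G.coeff 0‖ ^ 2) ≤
      B * (1 + r ^ 2 * ‖β‖ ^ 2) := by
  set N : ℕ := F.natDegree + G.natDegree + 2 with hN
  have hN0 : N ≠ 0 := by omega
  set ζ : ℂ := Complex.exp (2 * Real.pi * Complex.I / N)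
  have hζ : IsPrimitiveRoot ζ N := Complex.isPrimitiveRoot_exp N hN0
  have hNpos : (0 : ℝ) < N := by exact_mod_cast Nat.pos_of_ne_zero hN0
  set L : ℂ[X] := 1 + C β * X with hL
  have hLdeg : L.natDegree ≤ 1 := by
    rw [hL]
    compute_degree
  have hz : ∀ m : ℕ, ‖(r : ℂ) * ζ ^ m‖ = |r| := by
    intro m
    rw [norm_mul, norm_pow, hζ.norm'_eq_one hN0, one_pow, mul_one, Complex.norm_real,
      Real.norm_eq_abs]
  have hcoeff0 : ∀ P : ℂ[X], (L * P).coeff 0 = P.coeff 0 := by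
    intro P
    rw [mul_coeff_zero, hL]
    simp
  have hcoeff1 : ∀ P : ℂ[X], (L * P).coeff 1 = P.coeff 1 + β * P.coeff 0 := by
    intro P
    rw [hL, add_mul, one_mul, coeff_add, mul_assoc, coeff_C_mul, coeff_X_mul]
  have hlow : ∀ P : ℂ[X], P.natDegree < N → (N : ℝ) * (‖P.coeff 0‖ ^ 2 + r ^ 2 * ‖P.coeff 1‖ ^ 2) ≤
      ∑ m ∈ range N, ‖P.eval ((r : ℂ) * ζ ^ m)‖ ^ 2 := by
    intro P hP
    rw [sum_norm_sq hζ hN0 P hP r]
    refine mul_le_mul_of_nonneg_left ?_ hNpos.le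
    have hsub : range 2 ⊆ range N := range_mono (by omega)
    refine le_trans (le_of_eq ?_) (sum_le_sum_of_subset_of_nonneg hsub
      (fun j _ _ => mul_nonneg (by rw [pow_mul]; positivity) (sq_nonneg _)))
    rw [sum_range_succ, sum_range_succ, sum_range_zero]
    ring
  have h1 := hlow (L * F) (by
    have := natDegree_mul_le (p := L) (q := F); omega)
  have h2 := hlow (L * G) (by
    have := natDegree_mul_le (p := L) (q := G); omega)
  rw [hcoeff0, hcoeff1] at h1 h2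
  have h3 : ∑ m ∈ range N, ‖(L * F).eval ((r : ℂ) * ζ ^ m)‖ ^ 2 +
      ∑ m ∈ range N, ‖(L * G).eval ((r : ℂ) * ζ ^ m)‖ ^ 2 ≤
      ∑ m ∈ range N, B * ‖L.eval ((r : ℂ) * ζ ^ m)‖ ^ 2 := by
    rw [← sum_add_distrib]
    refine sum_le_sum fun m _ => ?_
    rw [eval_mul, eval_mul, norm_mul, norm_mul]
    have := h _ (hz m)
    nlinarith [sq_nonneg ‖L.eval ((r : ℂ) * ζ ^ m)‖]
  have h4 : ∑ m ∈ range N, ‖L.eval ((r : ℂ) * ζ ^ m)‖ ^ 2 = N * (1 + r ^ 2 * ‖β‖ ^ 2) := by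
    rw [sum_norm_sq hζ hN0 L (by omega) r]
    congr 1
    have hsub : range 2 ⊆ range N := range_mono (by omega)
    rw [← sum_subset hsub]
    · rw [sum_range_succ, sum_range_succ, sum_range_zero, hL]
      simp [coeff_one, coeff_X]
    · intro j _ hj
      rw [coeff_eq_zero_of_natDegree_lt (lt_of_le_of_lt hLdeg (by
        simp only [mem_range, not_lt] at hj; omega))]
      simp
  rw [← mul_sum, h4] at h3
  have h5 := (add_le_add h1 h2).trans h3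
  have h6 : (N : ℝ) * (‖F.coeff 0‖ ^ 2 + ‖G.coeff 0‖ ^ 2 +
      r ^ 2 * (‖F.coeff 1 + β * F.coeff 0‖ ^ 2 + ‖G.coeff 1 + β * G.coeff 0‖ ^ 2)) ≤
      N * (B * (1 + r ^ 2 * ‖β‖ ^ 2)) := by
    calc _ = _ := by ring
      _ ≤ _ := h5
      _ = _ := by ring
  exact le_of_mul_le_mul_left h6 hNpos

end Pool.Agent.H398R3.Hilb
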