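import Pool.Agent.H398R3.Avg

open scoped ComplexConjugate Topology
open Finset Polynomial Filter

namespace Pool.Agent.H398R3.Hilb

/-- The constant `k^k / (k+1)^(k+1)`. -/
noncomputable def kap2 (k : ℕ) : ℝ := (k : ℝ) ^ k / ((k : ℝ) + 1) ^ (k + 1)

lemma kap2_pos {k : ℕ} (hk : 1 ≤ k) : 0 < kap2 k := by
  unfold kap2
  have : (0 : ℝ) < k := by exact_mod_cast hk
  positivity

lemma kap2_le {k : ℕ} (hk : 2 ≤ k) : kap2 k ≤ (√k - 1) ^ 2 := by
  rcases Nat.lt_or_ge 2 k with h | h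
  · have hk3 : (3 : ℝ) ≤ k := by exact_mod_cast h
    have h1 : kap2 k ≤ 1 / 4 := by
      unfold kap2
      rw [pow_succ, div_le_iff₀ (by positivity)]
      have h2 : (k : ℝ) ^ k ≤ ((k : ℝ) + 1) ^ k := by gcongr; linarith
      nlinarith [pow_pos (show (0 : ℝ) < (k : ℝ) + 1 by linarith) k]
    have h2 : (1.7 : ℝ) ≤ √k := by
      apply Real.le_sqrt_of_sq_le
      norm_num
      linarith
    nlinarith
  · have hk2 : k = 2 := le_antisymm h hk
    subst hk2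
    have h0 : ((2 : ℕ) : ℝ) = 2 := by norm_num
    unfold kap2
    rw [h0]
    have h2 : √(2 : ℝ) ^ 2 = 2 := Real.sq_sqrt (by norm_num)
    have h3 : √(2 : ℝ) ≤ 1.415 := by
      rw [Real.sqrt_le_left (by norm_num)]
      norm_num
    nlinarith

lemma deriv_step {k : ℕ} {M2 b S : ℝ}
    (h : ∀ r : ℝ, M2 + r ^ 2 * S ≤ M2 * (1 + r ^ 2) ^ k * (1 + r ^ 2 * b)) :
    S ≤ M2 * (k + b) := by
  have h1 : ∀ t : ℝ, 0 < t → 0 ≤ t⁻¹ * ((M2 * (1 + t) ^ k * (1 + t * b) - t * S) -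
      (M2 * (1 + 0) ^ k * (1 + 0 * b) - 0 * S)) := by
    intro t ht
    have h2 := h (√t)
    rw [Real.sq_sqrt ht.le] at h2
    apply mul_nonneg (inv_nonneg.2 ht.le)
    simp only [add_zero, one_pow, mul_one, zero_mul, sub_zero]
    linarith
  have hd : HasDerivAt (fun t : ℝ => M2 * (1 + t) ^ k * (1 + t * b) - t * S)
      (M2 * (k + b) - S) 0 := by
    have e1 : HasDerivAt (fun t : ℝ => (1 + t)) 1 0 := by
      simpa using (hasDerivAt_id (0 : ℝ)).const_add 1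
    have e2 := (e1.pow k).const_mul M2
    have e3 : HasDerivAt (fun t : ℝ => (1 + t * b)) b 0 := by
      simpa using ((hasDerivAt_id (0 : ℝ)).mul_const b).const_add 1
    have e4 : HasDerivAt (fun t : ℝ => t * S) S 0 := by
      simpa using (hasDerivAt_id (0 : ℝ)).mul_const S
    have e5 := (e2.mul e3).sub e4
    refine e5.congr_deriv ?_
    simp
    ring
  have h3 := hd.tendsto_slope_zero_right
  have h4 : 0 ≤ M2 * (k + b) - S := by
    refine ge_of_tendsto h3 ?_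
    filter_upwards [self_mem_nhdsWithin] with t ht
    have := h1 t ht
    simpa [smul_eq_mul] using this
  linarith

/-- First and second order information at a maximum point. -/
lemma first_order {k : ℕ} {F G : ℂ[X]} {M2 : ℝ}
    (h1 : ∀ z : ℂ, ‖F.eval z‖ ^ 2 + ‖G.eval z‖ ^ 2 ≤ M2 * (1 + ‖z‖ ^ 2) ^ k)
    (h0 : ‖F.coeff 0‖ ^ 2 + ‖G.coeff 0‖ ^ 2 = M2) (hM : 0 < M2) :
    ‖G.coeff 1‖ ^ 2 ≤ k * ‖F.coeff 0‖ ^ 2 := by
  set F0 := F.coeff 0
  set F1 := F.coeff 1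
  set G0 := G.coeff 0
  set G1 := G.coeff 1
  have hs : ∀ β : ℂ, ‖F1 + β * F0‖ ^ 2 + ‖G1 + β * G0‖ ^ 2 ≤ M2 * (k + ‖β‖ ^ 2) := by
    intro β
    apply deriv_step
    intro r
    have := two_coeff F G (r := r) (B := M2 * (1 + r ^ 2) ^ k) (fun z hz => by
      have := h1 z
      rwa [hz, sq_abs] at this) β
    rw [h0] at this
    exact this
  set q : ℂ := conj F0 * F1 + conj G0 * G1 with hq
  have hexp : ∀ (x y β : ℂ), ‖x + β * y‖ ^ 2 = ‖x‖ ^ 2 + ‖β‖ ^ 2 * ‖y‖ ^ 2 +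
      2 * (conj β * (conj y * x)).re := by
    intro x y β
    rw [← Complex.normSq_eq_norm_sq, Complex.normSq_add, Complex.normSq_eq_norm_sq,
      Complex.normSq_eq_norm_sq, norm_mul, mul_pow, map_mul, mul_left_comm, mul_comm (conj y) x]
  have hs2 : ∀ β : ℂ, ‖F1‖ ^ 2 + ‖G1‖ ^ 2 + 2 * (conj β * q).re ≤ M2 * k := by
    intro β
    have h3 := hs β
    rw [hexp, hexp] at h3
    have h4 : (conj β * q).re = (conj β * (conj F0 * F1)).re + (conj β * (conj G0 * G1)).re := by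
      rw [hq, mul_add, Complex.add_re]
    rw [h4]
    have h5 : ‖β‖ ^ 2 * ‖F0‖ ^ 2 + ‖β‖ ^ 2 * ‖G0‖ ^ 2 = ‖β‖ ^ 2 * M2 := by
      rw [← h0]; ring
    nlinarith
  have hq0 : q = 0 := by
    by_contra hne
    have hpos : 0 < ‖q‖ ^ 2 := by positivity
    set τ : ℝ := (M2 * k) / ‖q‖ ^ 2 + 1 with hτ
    have h3 := hs2 ((τ : ℂ) * q)
    have h4 : (conj ((τ : ℂ) * q) * q).re = τ * ‖q‖ ^ 2 := by
      rw [map_mul, Complex.conj_ofReal, mul_assoc, ← Complex.normSq_eq_conj_mul_self,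
        Complex.normSq_eq_norm_sq, ← Complex.ofReal_mul, Complex.ofReal_re]
    rw [h4, hτ, add_mul, div_mul_cancel₀ _ hpos.ne'] at h3
    have : 0 ≤ M2 * k := by positivity
    nlinarith [sq_nonneg ‖F1‖, sq_nonneg ‖G1‖]
  have hS := hs2 0
  simp only [map_zero, zero_mul, Complex.zero_re, mul_zero, add_zero] at hS
  have h6 : ‖F0‖ ^ 2 * ‖F1‖ ^ 2 = ‖G0‖ ^ 2 * ‖G1‖ ^ 2 := by
    have h7 : conj F0 * F1 = -(conj G0 * G1) := eq_neg_of_add_eq_zero_left (by rw [← hq]; exact hq0)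
    have h8 := congrArg (fun w : ℂ => ‖w‖ ^ 2) h7
    simpa only [norm_neg, norm_mul, mul_pow, Complex.norm_conj] using h8
  have h9 : ‖G1‖ ^ 2 * M2 ≤ (k * ‖F0‖ ^ 2) * M2 := by
    calc ‖G1‖ ^ 2 * M2 = ‖F0‖ ^ 2 * (‖F1‖ ^ 2 + ‖G1‖ ^ 2) := by rw [← h0, mul_add, mul_add, h6]; ring
      _ ≤ ‖F0‖ ^ 2 * (M2 * k) := by gcongr
      _ = _ := by ring
  exact le_of_mul_le_mul_right h9 hM

/-- The two dimensional core of the lower bound. -/
lemma core {k : ℕ} (hk : 2 ≤ k) {F G : ℂ[X]} {M v : ℝ} (hM : 0 ≤ M)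
    (h1 : ∀ z : ℂ, ‖F.eval z‖ ^ 2 + ‖G.eval z‖ ^ 2 ≤ M ^ 2 * (1 + ‖z‖ ^ 2) ^ k)
    (h0 : ‖F.coeff 0‖ ^ 2 + ‖G.coeff 0‖ ^ 2 = M ^ 2)
    (h2 : ∀ z : ℂ, ‖F.eval z + conj z * G.eval z‖ ^ 2 ≤ v ^ 2 * (1 + ‖z‖ ^ 2) ^ (k + 1)) :
    kap2 k * M ^ 2 ≤ v ^ 2 := by
  rcases hM.eq_or_lt with hM0 | hMpos
  · rw [← hM0]; simp; positivity
  have hG1 := first_order h1 h0 (by positivity)
  by_contra hcon
  push Not at hcon
  have hkpos : (0 : ℝ) < k := by exact_mod_cast (by omega : 0 < k)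
  set F0 := F.coeff 0 with hF0
  set G0 := G.coeff 0 with hG0
  set G1 := G.coeff 1 with hG1'
  set s : ℝ := √k with hs
  have hs2 : s ^ 2 = k := Real.sq_sqrt hkpos.le
  have hspos : 0 < s := Real.sqrt_pos.2 hkpos
  set r : ℝ := s⁻¹ with hr
  have hrpos : 0 < r := inv_pos.2 hspos
  have hr2 : r ^ 2 = (k : ℝ)⁻¹ := by rw [hr, inv_pow, hs2]
  have hkap : kap2 k = r ^ 2 / (1 + r ^ 2) ^ (k + 1) := by
    unfold kap2
    rw [hr2]
    have : (1 : ℝ) + (k : ℝ)⁻¹ = (k + 1) / k := by field_simp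
    rw [this, div_pow, pow_succ (k : ℝ) k]
    field_simp
  set a : ℝ := ‖F0‖ with ha
  set b : ℝ := ‖G0‖ with hb
  have ha0 : 0 ≤ a := norm_nonneg _
  have hb0 : 0 ≤ b := norm_nonneg _
  have hav : a ^ 2 ≤ v ^ 2 := by
    have := h2 0
    simpa [← coeff_zero_eq_eval_zero] using this
  have hG1a : ‖G1‖ ≤ s * a := by
    apply le_of_sq_le_sq _ (by positivity)
    rw [mul_pow, hs2]
    exact hG1
  -- the auxiliary polynomial
  set h : ℂ[X] := X * F + C ((r ^ 2 : ℝ) : ℂ) * G with hh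
  have hc0 : h.coeff 0 = ((r ^ 2 : ℝ) : ℂ) * G0 := by
    rw [hh, coeff_add, coeff_C_mul, mul_coeff_zero, coeff_X_zero, zero_mul, zero_add]
  have hc1 : h.coeff 1 = F0 + ((r ^ 2 : ℝ) : ℂ) * G1 := by
    rw [hh, coeff_add, coeff_C_mul, coeff_X_mul]
  have hbound : ∀ z : ℂ, ‖z‖ = |r| → ‖h.eval z‖ ^ 2 + ‖(0 : ℂ[X]).eval z‖ ^ 2 ≤
      r ^ 2 * v ^ 2 * (1 + r ^ 2) ^ (k + 1) := by
    intro z hz
    have hz2 : ‖z‖ ^ 2 = r ^ 2 := by rw [hz, sq_abs]
    have he : h.eval z = z * (F.eval z + conj z * G.eval z) := by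
      rw [hh, eval_add, eval_mul, eval_mul, eval_X, eval_C, mul_add, ← mul_assoc,
        Complex.mul_conj, Complex.normSq_eq_norm_sq, hz2]
    rw [he, norm_mul, mul_pow, hz2]
    have := h2 z
    rw [hz2] at this
    simp only [eval_zero, norm_zero]
    nlinarith [sq_nonneg r]
  -- lower bound for the first coefficient
  have hc1low : a * (1 - r) ≤ ‖h.coeff 1‖ := by
    rw [hc1]
    have h3 : ‖F0‖ ≤ ‖F0 + ((r ^ 2 : ℝ) : ℂ) * G1‖ + ‖((r ^ 2 : ℝ) : ℂ) * G1‖ := by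
      have := norm_sub_le (F0 + ((r ^ 2 : ℝ) : ℂ) * G1) (((r ^ 2 : ℝ) : ℂ) * G1)
      simpa using this
    rw [norm_mul, Complex.norm_real, Real.norm_eq_abs, abs_of_nonneg (sq_nonneg r)] at h3
    have h4 : r ^ 2 * ‖G1‖ ≤ r * a := by
      calc r ^ 2 * ‖G1‖ ≤ r ^ 2 * (s * a) := by gcongr
        _ = r * a := by rw [hr]; field_simp
    linarith
  have hs1 : 1 < s := by
    rw [hs]
    apply Real.lt_sqrt_of_sq_lt
    have : (2 : ℝ) ≤ k := by exact_mod_cast hk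
    linarith
  have haσ : a ^ 2 ≤ (s - 1) ^ 2 * M ^ 2 := by
    calc a ^ 2 ≤ v ^ 2 := hav
      _ ≤ kap2 k * M ^ 2 := hcon.le
      _ ≤ _ := by gcongr; exact kap2_le hk
  -- the key inequality, for all nonnegative τ
  have hkey : ∀ τ : ℝ, 0 ≤ τ → (r ^ 2 * b) ^ 2 + r ^ 2 * (a * (1 - r) + τ * (r ^ 2 * b)) ^ 2 ≤
      r ^ 2 * v ^ 2 * (1 + r ^ 2) ^ (k + 1) * (1 + r ^ 2 * τ ^ 2) := by
    intro τ hτ
    -- choose the phase
    obtain ⟨β, hβ, hβ2⟩ : ∃ β : ℂ, ‖β‖ = τ ∧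
        ‖h.coeff 1 + β * h.coeff 0‖ = ‖h.coeff 1‖ + τ * ‖h.coeff 0‖ := by
      by_cases h5 : h.coeff 0 = 0
      · refine ⟨(τ : ℂ), ?_, ?_⟩
        · rw [Complex.norm_real, Real.norm_eq_abs, abs_of_nonneg hτ]
        · rw [h5]; simp
      · by_cases h6 : h.coeff 1 = 0
        · refine ⟨(τ : ℂ), ?_, ?_⟩
          · rw [Complex.norm_real, Real.norm_eq_abs, abs_of_nonneg hτ]
          · rw [h6, zero_add, norm_mul, Complex.norm_real, Real.norm_eq_abs, abs_of_nonneg hτ]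
            simp
        · have hn0 : (‖h.coeff 0‖ : ℂ) ≠ 0 := by
            exact_mod_cast (norm_ne_zero_iff.2 h5)
          have hn1 : (‖h.coeff 1‖ : ℂ) ≠ 0 := by
            exact_mod_cast (norm_ne_zero_iff.2 h6)
          refine ⟨(τ : ℂ) * (‖h.coeff 0‖ / h.coeff 0) * (h.coeff 1 / ‖h.coeff 1‖), ?_, ?_⟩
          · rw [norm_mul, norm_mul, norm_div, norm_div, Complex.norm_real, Complex.norm_real,
              Complex.norm_real, Real.norm_eq_abs, Real.norm_eq_abs, Real.norm_eq_abs,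
              abs_of_nonneg hτ, abs_of_nonneg (norm_nonneg _), abs_of_nonneg (norm_nonneg _),
              div_self (norm_ne_zero_iff.2 h5), div_self (norm_ne_zero_iff.2 h6)]
            ring
          · have h7 : h.coeff 1 + (τ : ℂ) * (‖h.coeff 0‖ / h.coeff 0) *
                (h.coeff 1 / ‖h.coeff 1‖) * h.coeff 0 =
                (h.coeff 1 / ‖h.coeff 1‖) * ((‖h.coeff 1‖ + τ * ‖h.coeff 0‖ : ℝ) : ℂ) := by
              push_cast
              field_simp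
            rw [h7, norm_mul, norm_div, Complex.norm_real, Complex.norm_real, Real.norm_eq_abs,
              Real.norm_eq_abs, abs_of_nonneg (norm_nonneg _),
              div_self (norm_ne_zero_iff.2 h6), one_mul, abs_of_nonneg (by positivity)]
    have h8 := two_coeff h 0 hbound β
    rw [hβ2, hβ] at h8
    have h9 : ‖h.coeff 0‖ = r ^ 2 * b := by
      rw [hc0, norm_mul, Complex.norm_real, Real.norm_eq_abs, abs_of_nonneg (sq_nonneg r)]
    rw [h9] at h8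
    simp only [coeff_zero, mul_zero, add_zero, norm_zero, ne_eq, OfNat.ofNat_ne_zero,
      not_false_eq_true, zero_pow] at h8
    refine le_trans ?_ h8
    have hr1 : r ≤ 1 := by
      rw [hr]; exact inv_le_one_of_one_le₀ hs1.le
    have h10 : 0 ≤ a * (1 - r) := mul_nonneg ha0 (by linarith)
    gcongr
  have hlt : ∀ τ : ℝ, 0 ≤ τ → (r ^ 2 * b) ^ 2 + r ^ 2 * (a * (1 - r) + τ * (r ^ 2 * b)) ^ 2 <
      r ^ 4 * M ^ 2 * (1 + r ^ 2 * τ ^ 2) := by
    intro τ hτ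
    refine lt_of_le_of_lt (hkey τ hτ) ?_
    have h11 : v ^ 2 * (1 + r ^ 2) ^ (k + 1) < r ^ 2 * M ^ 2 := by
      have h12 : (0 : ℝ) < (1 + r ^ 2) ^ (k + 1) := by positivity
      rw [hkap, div_mul_eq_mul_div, lt_div_iff₀ h12] at hcon
      exact hcon
    have h13 : 0 < r ^ 2 * (1 + r ^ 2 * τ ^ 2) := by positivity
    calc r ^ 2 * v ^ 2 * (1 + r ^ 2) ^ (k + 1) * (1 + r ^ 2 * τ ^ 2)
        = (v ^ 2 * (1 + r ^ 2) ^ (k + 1)) * (r ^ 2 * (1 + r ^ 2 * τ ^ 2)) := by ring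
      _ < (r ^ 2 * M ^ 2) * (r ^ 2 * (1 + r ^ 2 * τ ^ 2)) := by gcongr
      _ = _ := by ring
  have hsr : s * r = 1 := by rw [hr]; field_simp
  rcases ha0.eq_or_lt with ha00 | hapos
  · have := hlt 0 le_rfl
    rw [← ha00] at this h0
    simp only [zero_mul, mul_zero, add_zero, ne_eq, OfNat.ofNat_ne_zero, not_false_eq_true,
      zero_pow, zero_add, mul_one] at this h0
    rw [← h0] at this
    nlinarith [sq_nonneg r]
  · -- T = σ b / a, τ = T / r = s T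
    set T : ℝ := (s - 1) * b / a with hT
    have hT0 : 0 ≤ T := by
      rw [hT]; exact div_nonneg (mul_nonneg (by linarith) hb0) hapos.le
    have hTa : T * a = (s - 1) * b := by rw [hT]; field_simp
    have h14 := hlt (s * T) (by positivity)
    have h15 : r ^ 2 * (s * T) ^ 2 = T ^ 2 := by
      calc r ^ 2 * (s * T) ^ 2 = (s * r) ^ 2 * T ^ 2 := by ring
        _ = T ^ 2 := by rw [hsr]; ring
    have h16 : a * (1 - r) + s * T * (r ^ 2 * b) = r * ((s - 1) * a + T * b) := by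
      linear_combination (r * T * b - a) * hsr
    rw [h15, h16] at h14
    have hr4 : 0 < r ^ 4 := by positivity
    have h17 : b ^ 2 + ((s - 1) * a + T * b) ^ 2 < M ^ 2 * (1 + T ^ 2) := by
      have h18 : r ^ 4 * (b ^ 2 + ((s - 1) * a + T * b) ^ 2) < r ^ 4 * (M ^ 2 * (1 + T ^ 2)) := by
        calc _ = (r ^ 2 * b) ^ 2 + r ^ 2 * (r * ((s - 1) * a + T * b)) ^ 2 := by ring
          _ < _ := h14
          _ = _ := by ring
      exact lt_of_mul_lt_mul_left h18 hr4.le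
    have h19 : a ^ 2 + b ^ 2 = M ^ 2 := h0
    -- compute the difference
    have h20 : b ^ 2 + ((s - 1) * a + T * b) ^ 2 - M ^ 2 * (1 + T ^ 2) =
        (s - 1) ^ 2 * M ^ 2 - a ^ 2 := by
      rw [← h19]
      linear_combination (-(T * a - (s - 1) * b)) * hTa
    linarith

end Pool.Agent.H398R3.Hilb
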