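import Mathlib
import Pool.Agent.H301X.FR.Stmts

/-! Fenchel's theorem for the tangent indicatrix, from the comparison of angle and length. -/

set_option autoImplicit false

open Real InnerProductSpace MeasureTheory Set
open scoped ContDiff RealInnerProductSpace

namespace Pool.Agent.H398R3

open Pool.Agent.H301X.FR

theorem taskFenchel : TaskFenchel := by
  intro hA n u ρ hu hnorm hper hρ hρpos hint
  have h2pi : (0 : ℝ) < 2 * π := by positivity
  set g : ℝ → ℝ := fun t => ‖deriv u t‖ with hg
  have hgc : Continuous g := (hu.continuous_deriv le_rfl).norm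
  have hgi : ∀ a b : ℝ, IntervalIntegrable g volume a b := fun a b => hgc.intervalIntegrable a b
  have hFc : Continuous (fun b : ℝ => ∫ t in (0 : ℝ)..b, g t) :=
    intervalIntegral.continuous_primitive hgi 0
  set L : ℝ := ∫ t in (0 : ℝ)..(2 * π), g t with hL
  have hL0 : 0 ≤ L := intervalIntegral.integral_nonneg h2pi.le fun t _ => norm_nonneg _
  have hmem : L / 2 ∈ Icc ((fun b : ℝ => ∫ t in (0 : ℝ)..b, g t) 0)
      ((fun b : ℝ => ∫ t in (0 : ℝ)..b, g t) (2 * π)) := by
    simp only [intervalIntegral.integral_same]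
    rw [← hL]
    constructor <;> linarith
  obtain ⟨b, hb, hFb⟩ := intermediate_value_Icc h2pi.le hFc.continuousOn hmem
  simp only at hFb
  have huc : Continuous u := hu.continuous
  -- a point where the scalar product is not positive
  have hex : ∃ t0 ∈ Icc (0 : ℝ) (2 * π), ⟪u 0 + u b, u t0⟫ ≤ 0 := by
    by_contra hcon
    push Not at hcon
    have hpos : 0 < ∫ t in (0 : ℝ)..(2 * π), ρ t * ⟪u 0 + u b, u t⟫ := by
      apply intervalIntegral.intervalIntegral_pos_of_pos_on
      · exact (hρ.mul (continuous_const.inner huc)).intervalIntegrable _ _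
      · intro t ht
        exact mul_pos (hρpos t) (hcon t ⟨ht.1.le, ht.2.le⟩)
      · exact h2pi
    have heq : ∫ t in (0 : ℝ)..(2 * π), ρ t * ⟪u 0 + u b, u t⟫ = 0 := by
      have hi : IntervalIntegrable (fun t => ρ t • u t) volume 0 (2 * π) :=
        (hρ.smul huc).intervalIntegrable _ _
      have h1 : ∫ t in (0 : ℝ)..(2 * π), (innerSL ℝ (u 0 + u b)) (ρ t • u t) =
          (innerSL ℝ (u 0 + u b)) (∫ t in (0 : ℝ)..(2 * π), ρ t • u t) :=
        ContinuousLinearMap.intervalIntegral_comp_comm _ hi
      rw [hint, map_zero] at h1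
      refine Eq.trans ?_ h1
      apply intervalIntegral.integral_congr
      intro t _
      simp only [innerSL_apply_apply]
      rw [inner_smul_right]
    rw [heq] at hpos
    exact lt_irrefl _ hpos
  obtain ⟨t0, ht0, hle⟩ := hex
  rw [inner_add_left] at hle
  have hang : ∀ x y : ℝ, InnerProductGeometry.angle (u x) (u y) = arccos ⟪u x, u y⟫ := by
    intro x y
    unfold InnerProductGeometry.angle
    rw [hnorm, hnorm]
    norm_num
  have hpi : π ≤ InnerProductGeometry.angle (u 0) (u t0) +
      InnerProductGeometry.angle (u b) (u t0) := by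
    rw [hang, hang]
    have h1 : arccos (-⟪u b, u t0⟫) ≤ arccos ⟪u 0, u t0⟫ := arccos_le_arccos (by linarith)
    rw [arccos_neg] at h1
    linarith
  have hadd : ∀ x y z : ℝ, (∫ t in x..y, g t) + ∫ t in y..z, g t = ∫ t in x..z, g t :=
    fun x y z => intervalIntegral.integral_add_adjacent_intervals (hgi x y) (hgi y z)
  rcases le_total t0 b with h | h
  · have h1 := hA n u hu hnorm 0 t0 ht0.1
    have h2 := hA n u hu hnorm t0 b h
    rw [InnerProductGeometry.angle_comm (u t0) (u b)] at h2
    have h3 := hadd 0 t0 b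
    simp only [hg] at h3 hFb
    linarith
  · have h1 := hA n u hu hnorm b t0 h
    have h2 := hA n u hu hnorm t0 (2 * π) ht0.2
    rw [hper, InnerProductGeometry.angle_comm (u t0) (u 0)] at h2
    have h3 := hadd b t0 (2 * π)
    have h4 := hadd 0 b (2 * π)
    simp only [hg] at h3 h4 hFb hL
    linarith

end Pool.Agent.H398R3
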