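import Pool.Agent.H398R3.Core

open scoped ComplexConjugate InnerProductSpace Topology
open Finset Polynomial Filter

namespace Pool.Agent.H398R3.Hilb

/-- Along a complex line, a multilinear map on the diagonal is polynomial. -/
lemma exists_poly {E : Type*} [NormedAddCommGroup E] [NormedSpace ℂ E] {k : ℕ}
    (A : ContinuousMultilinearMap ℂ (fun _ : Fin k => E) E) (φ : E →L[ℂ] ℂ) (e f : E) :
    ∃ F : ℂ[X], ∀ z : ℂ, F.eval z = φ (A (fun _ => e + z • f)) := by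
  refine ⟨∑ s : Finset (Fin k), C (φ (A (s.piecewise (fun _ => e) (fun _ => f)))) *
    X ^ (sᶜ).card, fun z => ?_⟩
  have h1 : (fun _ : Fin k => e + z • f) = (fun _ => e) + (fun _ => z • f) := rfl
  rw [h1]
  have h2 := A.toMultilinearMap.map_add_univ (fun _ : Fin k => e) (fun _ => z • f)
  have h3 : A ((fun _ => e) + fun _ => z • f) = ∑ s : Finset (Fin k),
      A (s.piecewise (fun _ => e) (fun _ => z • f)) := h2
  rw [h3, map_sum, eval_finsetSum]
  refine sum_congr rfl fun s _ => ?_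
  have h4 : (s.piecewise (fun _ : Fin k => e) (fun _ => z • f)) =
      fun i => (s.piecewise (fun _ => (1 : ℂ)) (fun _ => z)) i •
        (s.piecewise (fun _ : Fin k => e) (fun _ => f)) i := by
    funext i
    by_cases hi : i ∈ s
    · simp [Finset.piecewise, hi]
    · simp [Finset.piecewise, hi]
  have h5 := A.toMultilinearMap.map_smul_univ (s.piecewise (fun _ : Fin k => (1 : ℂ)) (fun _ => z))
    (s.piecewise (fun _ : Fin k => e) (fun _ => f))
  have h6 : A (s.piecewise (fun _ : Fin k => e) (fun _ => z • f)) =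
      (∏ i, (s.piecewise (fun _ => (1 : ℂ)) (fun _ => z)) i) •
        A (s.piecewise (fun _ : Fin k => e) (fun _ => f)) := by
    rw [h4]; exact h5
  have h7 : (∏ i, (s.piecewise (fun _ : Fin k => (1 : ℂ)) (fun _ => z)) i) = z ^ (sᶜ).card := by
    rw [← Finset.prod_mul_prod_compl s]
    have h8 : ∏ i ∈ s, (s.piecewise (fun _ : Fin k => (1 : ℂ)) (fun _ => z)) i = 1 :=
      prod_eq_one fun i hi => by simp [Finset.piecewise, hi]
    have h9 : ∏ i ∈ sᶜ, (s.piecewise (fun _ : Fin k => (1 : ℂ)) (fun _ => z)) i =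
        ∏ _i ∈ sᶜ, z := prod_congr rfl fun i hi => by
          have : i ∉ s := Finset.mem_compl.1 hi
          simp [Finset.piecewise, this]
    rw [h8, h9, prod_const, one_mul]
  rw [h6, h7, map_smul, smul_eq_mul, eval_mul, eval_C, eval_pow, eval_X, mul_comm]

variable {H : Type*} [NormedAddCommGroup H] [InnerProductSpace ℂ H]

lemma apply_smul {E : Type*} [NormedAddCommGroup E] [NormedSpace ℂ E] {k : ℕ}
    (A : ContinuousMultilinearMap ℂ (fun _ : Fin k => E) E) (c : ℂ) (x : E) :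
    A (fun _ => c • x) = c ^ k • A (fun _ => x) := by
  have h := A.toMultilinearMap.map_smul_univ (fun _ : Fin k => c) (fun _ => x)
  simpa using h

/-- Lower bound at a given point, given a second vector completing an orthonormal pair. -/
lemma lower_aux {k : ℕ} (hk : 2 ≤ k) (A : ContinuousMultilinearMap ℂ (fun _ : Fin k => H) H)
    {v : ℝ} (hv : ∀ x : H, ‖x‖ = 1 → ‖⟪x, A (fun _ => x)⟫_ℂ‖ ≤ v) {u g : H} (hu : ‖u‖ = 1)
    (hg : ‖g‖ = 1) (hug : ⟪u, g⟫_ℂ = 0) :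
    kap2 k * (‖⟪u, A (fun _ => u)⟫_ℂ‖ ^ 2 + ‖⟪g, A (fun _ => u)⟫_ℂ‖ ^ 2) ≤ v ^ 2 := by
  have hgu : ⟪g, u⟫_ℂ = 0 := by rw [← inner_conj_symm, hug, map_zero]
  have huu : ⟪u, u⟫_ℂ = 1 := by rw [inner_self_eq_norm_sq_to_K, hu]; simp
  have hgg : ⟪g, g⟫_ℂ = 1 := by rw [inner_self_eq_norm_sq_to_K, hg]; simp
  set ι : ℂ × ℂ → H := fun p => p.1 • u + p.2 • g with hι
  have hnorm : ∀ p : ℂ × ℂ, ‖ι p‖ ^ 2 = ‖p.1‖ ^ 2 + ‖p.2‖ ^ 2 := by
    intro p
    have h1 : ⟪p.1 • u, p.2 • g⟫_ℂ = 0 := by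
      rw [inner_smul_left, inner_smul_right, hug]; simp
    have h2 := norm_add_sq_eq_norm_sq_add_norm_sq_of_inner_eq_zero (p.1 • u) (p.2 • g) h1
    rw [norm_smul, norm_smul, hu, hg, mul_one, mul_one] at h2
    simp only [hι, sq]
    exact h2
  have hιc : Continuous ι := by fun_prop
  set Ψ : ℂ × ℂ → ℝ := fun p => ‖⟪u, A (fun _ => ι p)⟫_ℂ‖ ^ 2 + ‖⟪g, A (fun _ => ι p)⟫_ℂ‖ ^ 2 with hΨ
  have hΨc : Continuous Ψ := by
    have h1 : Continuous fun p => A (fun _ : Fin k => ι p) :=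
      A.cont.comp (continuous_pi fun _ => hιc)
    fun_prop
  set S : Set (ℂ × ℂ) := {p | ‖p.1‖ ^ 2 + ‖p.2‖ ^ 2 = 1} with hS
  have hScl : IsClosed S := isClosed_eq (by fun_prop) continuous_const
  have hSb : S ⊆ Metric.closedBall 0 1 := by
    intro p hp
    have hp' : ‖p.1‖ ^ 2 + ‖p.2‖ ^ 2 = 1 := hp
    rw [mem_closedBall_zero_iff, Prod.norm_def]
    apply max_le
    · nlinarith [norm_nonneg p.1, sq_nonneg ‖p.2‖]
    · nlinarith [norm_nonneg p.2, sq_nonneg ‖p.1‖]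
  have hScomp : IsCompact S := (isCompact_closedBall (0 : ℂ × ℂ) 1).of_isClosed_subset hScl hSb
  have h10 : ((1 : ℂ), (0 : ℂ)) ∈ S := by simp [hS]
  obtain ⟨p, hpS, hpmax⟩ := hScomp.exists_isMaxOn ⟨_, h10⟩ hΨc.continuousOn
  have hp1 : ‖p.1‖ ^ 2 + ‖p.2‖ ^ 2 = 1 := hpS
  have hmax : ∀ q ∈ S, Ψ q ≤ Ψ p := fun q hq => hpmax hq
  -- homogeneity
  have hhom : ∀ q : ℂ × ℂ, Ψ q ≤ Ψ p * (‖q.1‖ ^ 2 + ‖q.2‖ ^ 2) ^ k := by
    intro q
    set n2 : ℝ := ‖q.1‖ ^ 2 + ‖q.2‖ ^ 2 with hn2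
    rcases (show 0 ≤ n2 by positivity).eq_or_lt with h0 | hpos
    · have hq1 : q.1 = 0 := by
        have : ‖q.1‖ ^ 2 = 0 := by nlinarith [sq_nonneg ‖q.1‖, sq_nonneg ‖q.2‖]
        exact norm_eq_zero.1 (pow_eq_zero_iff (two_ne_zero) |>.1 this)
      have hq2 : q.2 = 0 := by
        have : ‖q.2‖ ^ 2 = 0 := by nlinarith [sq_nonneg ‖q.1‖, sq_nonneg ‖q.2‖]
        exact norm_eq_zero.1 (pow_eq_zero_iff (two_ne_zero) |>.1 this)
      have hz : A (fun _ => ι q) = 0 := by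
        have : ι q = 0 := by simp [hι, hq1, hq2]
        rw [this]
        exact A.toMultilinearMap.map_coord_zero (⟨0, by omega⟩ : Fin k) rfl
      have h3 : Ψ q = 0 := by simp [hΨ, hz]
      rw [h3]
      have : 0 ≤ Ψ p := by simp only [hΨ]; positivity
      positivity
    · set n : ℝ := √n2 with hn
      have hnpos : 0 < n := Real.sqrt_pos.2 hpos
      have hnsq : n ^ 2 = n2 := Real.sq_sqrt hpos.le
      have hnC : (n : ℂ) ≠ 0 := by exact_mod_cast hnpos.ne'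
      set q' : ℂ × ℂ := ((n : ℂ)⁻¹ * q.1, (n : ℂ)⁻¹ * q.2) with hq'
      have hq'S : q' ∈ S := by
        show ‖(n : ℂ)⁻¹ * q.1‖ ^ 2 + ‖(n : ℂ)⁻¹ * q.2‖ ^ 2 = 1
        rw [norm_mul, norm_mul, norm_inv, Complex.norm_real, Real.norm_eq_abs,
          abs_of_pos hnpos, mul_pow, mul_pow, ← mul_add, ← hn2, ← hnsq, inv_pow]
        field_simp
      have hιq : ι q = (n : ℂ) • ι q' := by
        simp only [hι, hq', smul_add, smul_smul]
        rw [mul_inv_cancel_left₀ hnC, mul_inv_cancel_left₀ hnC]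
      have h4 : Ψ q = n2 ^ k * Ψ q' := by
        simp only [hΨ]
        rw [hιq, apply_smul, inner_smul_right, inner_smul_right, norm_mul, norm_mul, norm_pow,
          Complex.norm_real, Real.norm_eq_abs, abs_of_pos hnpos, ← hnsq]
        ring
      rw [h4, mul_comm]
      have := hmax q' hq'S
      gcongr
  -- new orthonormal pair
  set e : H := ι p with he
  set f : H := (-conj p.2) • u + (conj p.1) • g with hf
  have hconj : conj p.1 * p.1 + conj p.2 * p.2 = 1 := by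
    rw [← Complex.normSq_eq_conj_mul_self, ← Complex.normSq_eq_conj_mul_self,
      Complex.normSq_eq_norm_sq, Complex.normSq_eq_norm_sq]
    exact_mod_cast hp1
  have hinner_e : ∀ y : H, ⟪e, y⟫_ℂ = conj p.1 * ⟪u, y⟫_ℂ + conj p.2 * ⟪g, y⟫_ℂ := by
    intro y
    simp only [he, hι]
    rw [inner_add_left, inner_smul_left, inner_smul_left]
  have hinner_f : ∀ y : H, ⟪f, y⟫_ℂ = -p.2 * ⟪u, y⟫_ℂ + p.1 * ⟪g, y⟫_ℂ := by
    intro y
    rw [hf, inner_add_left, inner_smul_left, inner_smul_left]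
    simp
  have hunit : ∀ y : H, ‖⟪e, y⟫_ℂ‖ ^ 2 + ‖⟪f, y⟫_ℂ‖ ^ 2 = ‖⟪u, y⟫_ℂ‖ ^ 2 + ‖⟪g, y⟫_ℂ‖ ^ 2 := by
    intro y
    have h1 : ((‖⟪e, y⟫_ℂ‖ ^ 2 + ‖⟪f, y⟫_ℂ‖ ^ 2 : ℝ) : ℂ) =
        ((‖⟪u, y⟫_ℂ‖ ^ 2 + ‖⟪g, y⟫_ℂ‖ ^ 2 : ℝ) : ℂ) := by
      have hsq : ∀ w : ℂ, ((‖w‖ ^ 2 : ℝ) : ℂ) = conj w * w := by
        intro w
        rw [← Complex.normSq_eq_conj_mul_self, Complex.normSq_eq_norm_sq]
      rw [Complex.ofReal_add, Complex.ofReal_add, hsq, hsq, hsq, hsq, hinner_e, hinner_f]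
      simp only [map_add, map_mul, Complex.conj_conj, map_neg]
      linear_combination (conj ⟪u, y⟫_ℂ * ⟪u, y⟫_ℂ + conj ⟪g, y⟫_ℂ * ⟪g, y⟫_ℂ) * hconj
    exact_mod_cast h1
  obtain ⟨F, hF⟩ := exists_poly A (innerSL ℂ e) e f
  obtain ⟨G, hG⟩ := exists_poly A (innerSL ℂ f) e f
  have hpoint : ∀ z : ℂ, e + z • f = ι (p.1 - z * conj p.2, p.2 + z * conj p.1) := by
    intro z
    simp only [he, hf, hι]
    module
  have hnp : ∀ z : ℂ, ‖p.1 - z * conj p.2‖ ^ 2 + ‖p.2 + z * conj p.1‖ ^ 2 = 1 + ‖z‖ ^ 2 := by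
    intro z
    have h1 : ((‖p.1 - z * conj p.2‖ ^ 2 + ‖p.2 + z * conj p.1‖ ^ 2 : ℝ) : ℂ) =
        ((1 + ‖z‖ ^ 2 : ℝ) : ℂ) := by
      have hsq : ∀ w : ℂ, ((‖w‖ ^ 2 : ℝ) : ℂ) = conj w * w := by
        intro w
        rw [← Complex.normSq_eq_conj_mul_self, Complex.normSq_eq_norm_sq]
      rw [Complex.ofReal_add, Complex.ofReal_add, hsq, hsq, hsq]
      simp only [map_add, map_sub, map_mul, Complex.conj_conj, Complex.ofReal_one]
      linear_combination (1 + conj z * z) * hconj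
    exact_mod_cast h1
  have hM0 : 0 ≤ Ψ p := by simp only [hΨ]; positivity
  have hMsq : √(Ψ p) ^ 2 = Ψ p := Real.sq_sqrt hM0
  have hcore := core (k := k) hk (F := F) (G := G) (M := √(Ψ p)) (v := v) (Real.sqrt_nonneg _)
    (by
      intro z
      rw [hF, hG, hMsq]
      simp only [innerSL_apply_apply]
      rw [hunit, hpoint]
      have := hhom (p.1 - z * conj p.2, p.2 + z * conj p.1)
      simp only [hnp] at this
      exact this)
    (by
      rw [hMsq, coeff_zero_eq_eval_zero, coeff_zero_eq_eval_zero, hF, hG]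
      simp only [innerSL_apply_apply, zero_smul, add_zero]
      rw [hunit])
    (by
      intro z
      rw [hF, hG]
      simp only [innerSL_apply_apply]
      set x : H := e + z • f with hx
      have h1 : ⟪e, A (fun _ => x)⟫_ℂ + conj z * ⟪f, A (fun _ => x)⟫_ℂ = ⟪x, A (fun _ => x)⟫_ℂ := by
        conv_rhs => rw [hx, inner_add_left, inner_smul_left]
      rw [h1]
      have hxn : ‖x‖ ^ 2 = 1 + ‖z‖ ^ 2 := by
        rw [hx, hpoint, hnorm, hnp]
      have hxpos : 0 < ‖x‖ := by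
        rcases (norm_nonneg x).eq_or_lt with h0 | h0
        · rw [← h0] at hxn
          nlinarith [sq_nonneg ‖z‖]
        · exact h0
      have hxC : (‖x‖ : ℂ) ≠ 0 := by exact_mod_cast hxpos.ne'
      set y : H := (‖x‖ : ℂ)⁻¹ • x with hy
      have hyn : ‖y‖ = 1 := by
        rw [hy, norm_smul, norm_inv, Complex.norm_real, norm_norm]
        exact inv_mul_cancel₀ hxpos.ne'
      have hxy : x = (‖x‖ : ℂ) • y := by
        rw [hy, smul_smul, mul_inv_cancel₀ hxC, one_smul]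
      have h2 := hv y hyn
      have h3 : ‖⟪x, A (fun _ => x)⟫_ℂ‖ = ‖x‖ ^ (k + 1) * ‖⟪y, A (fun _ => y)⟫_ℂ‖ := by
        conv_lhs => rw [hxy]
        rw [apply_smul, inner_smul_left, inner_smul_right, norm_mul, norm_mul, norm_pow,
          Complex.norm_conj, Complex.norm_real, norm_norm]
        ring
      rw [h3, mul_pow, ← pow_mul, mul_comm (k + 1) 2, pow_mul, hxn, mul_comm]
      have : ‖⟪y, A (fun _ => y)⟫_ℂ‖ ^ 2 ≤ v ^ 2 := by
        gcongr
      gcongr)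
  rw [hMsq] at hcore
  have h20 := hmax (1, 0) h10
  have h21 : Ψ (1, 0) = ‖⟪u, A (fun _ => u)⟫_ℂ‖ ^ 2 + ‖⟪g, A (fun _ => u)⟫_ℂ‖ ^ 2 := by
    simp [hΨ, hι]
  rw [← h21]
  refine le_trans ?_ hcore
  have := (kap2_pos (k := k) (by omega)).le
  gcongr

end Pool.Agent.H398R3.Hilb
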