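import Mathlib

open Real Filter Topology

namespace Pool.Agent.H398R3.RO

lemma pow_upper {s u : ℝ} (hs : 0 < s) (hu : |u| ≤ 1 / 2) (hsu : 2 * s * |u| ≤ 1) :
    (1 + u) ^ (-s) ≤ 1 - s * u + (2 * s + 4 * s ^ 2) * u ^ 2 := by
  have hu1 : -(1 / 2) ≤ u := (abs_le.1 hu).1
  have hu2 : u ≤ 1 / 2 := (abs_le.1 hu).2
  have hpos : 0 < 1 + u := by linarith
  have hlog : u - 2 * u ^ 2 ≤ log (1 + u) := by
    have h1 := Real.one_sub_inv_le_log_of_pos hpos
    have h2 : u - 2 * u ^ 2 ≤ 1 - (1 + u)⁻¹ := by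
      have h3 : 1 - (1 + u)⁻¹ - (u - 2 * u ^ 2) = u ^ 2 * (1 + 2 * u) / (1 + u) := by
        field_simp
        ring
      have h4 : 0 ≤ u ^ 2 * (1 + 2 * u) / (1 + u) := by
        apply div_nonneg _ hpos.le
        apply mul_nonneg (sq_nonneg u)
        linarith
      linarith
    exact h2.trans h1
  set w : ℝ := -s * u + 2 * s * u ^ 2 with hw
  have h1 : (1 + u) ^ (-s) ≤ exp w := by
    rw [Real.rpow_def_of_pos hpos]
    apply Real.exp_le_exp.2
    nlinarith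
  have habs : |w| ≤ 2 * s * |u| := by
    rw [hw]
    calc |-s * u + 2 * s * u ^ 2| ≤ |-s * u| + |2 * s * u ^ 2| := abs_add_le _ _
      _ = s * |u| + 2 * s * |u| ^ 2 := by
          rw [abs_mul, abs_neg, abs_of_pos hs, abs_mul, abs_of_pos (by positivity : 0 < 2 * s),
            abs_pow]
      _ ≤ s * |u| + 2 * s * (|u| * (1 / 2)) := by
          have := abs_nonneg u
          gcongr
          nlinarith
      _ = _ := by ring
  have h2 := Real.abs_exp_sub_one_sub_id_le (habs.trans hsu)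
  have h3 : exp w ≤ 1 + w + w ^ 2 := by
    have := (abs_le.1 h2).2
    linarith
  have h4 : w ^ 2 ≤ 4 * s ^ 2 * u ^ 2 := by
    have h5 : w ^ 2 = |w| ^ 2 := (sq_abs w).symm
    rw [h5]
    calc |w| ^ 2 ≤ (2 * s * |u|) ^ 2 := by gcongr
      _ = 4 * s ^ 2 * |u| ^ 2 := by ring
      _ = _ := by rw [sq_abs]
  calc (1 + u) ^ (-s) ≤ exp w := h1
    _ ≤ 1 + w + w ^ 2 := h3
    _ ≤ 1 + w + 4 * s ^ 2 * u ^ 2 := by linarith
    _ = _ := by rw [hw]; ring

/-- The constant `κ_p = p^(-1/p) q^(-1/q)`. -/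
noncomputable def kap (p q : ℝ) : ℝ := (p ^ (1 / p) * q ^ (1 / q))⁻¹

lemma kap_pos {p q : ℝ} (hp : 0 < p) (hq : 0 < q) : 0 < kap p q := by
  unfold kap
  positivity

/-- Young's inequality with a parameter. -/
lemma young {p q : ℝ} (hpq : p.HolderConjugate q) {l m θ : ℝ} (hl : 0 ≤ l)
    (hm : 0 ≤ m) (hθ : 0 < θ) :
    l ^ (1 / p) * m ^ (1 / q) ≤ kap p q * (θ * l + θ ^ (1 - q) * m) := by
  have hp := hpq.pos
  have hq := hpq.symm.pos
  have hsum : 1 / p + 1 / q = 1 := by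
    have := hpq.inv_add_inv_eq_one
    simpa [one_div] using this
  have h := Real.geom_mean_le_arith_mean2_weighted (w₁ := 1 / p) (w₂ := 1 / q)
    (p₁ := θ * p * l) (p₂ := θ ^ (1 - q) * q * m) (by positivity) (by positivity) (by positivity)
    (by positivity) hsum
  have h1 : 1 / p * (θ * p * l) + 1 / q * (θ ^ (1 - q) * q * m) = θ * l + θ ^ (1 - q) * m := by
    field_simp
  rw [h1] at h
  have h2 : (θ * p * l) ^ (1 / p) * (θ ^ (1 - q) * q * m) ^ (1 / q) =
      p ^ (1 / p) * q ^ (1 / q) * (l ^ (1 / p) * m ^ (1 / q)) := by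
    rw [Real.mul_rpow (by positivity) hl, Real.mul_rpow hθ.le hp.le,
      Real.mul_rpow (by positivity) hm, Real.mul_rpow (by positivity) hq.le,
      ← Real.rpow_mul hθ.le]
    have h3 : θ ^ (1 / p) * θ ^ ((1 - q) * (1 / q)) = 1 := by
      rw [← Real.rpow_add hθ]
      have : 1 / p + (1 - q) * (1 / q) = 0 := by
        have h4 : (1 - q) * (1 / q) = 1 / q - 1 := by field_simp
        rw [h4]; linarith
      rw [this, Real.rpow_zero]
    calc _ = (θ ^ (1 / p) * θ ^ ((1 - q) * (1 / q))) *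
        (p ^ (1 / p) * q ^ (1 / q) * (l ^ (1 / p) * m ^ (1 / q))) := by ring
      _ = _ := by rw [h3, one_mul]
  rw [h2] at h
  have hc : 0 < p ^ (1 / p) * q ^ (1 / q) := by positivity
  unfold kap
  rw [← div_eq_inv_mul, le_div_iff₀ hc]
  linarith

/-- The key inequality. -/
lemma key {p q : ℝ} (hpq : p.HolderConjugate q) : ∃ C t₀ : ℝ, 0 ≤ C ∧ 0 < t₀ ∧
    ∀ t : ℝ, |t| ≤ t₀ → ∀ l m : ℝ, 0 ≤ l → 0 ≤ m → l + m ≤ 1 →
      l ^ (1 / p) * m ^ (1 / q) + t * (m - (p - 1) * l) ≤ kap p q + C * t ^ 2 := by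
  have hp1 : 0 < p - 1 := sub_pos.2 hpq.lt
  have hq1 : 0 < q - 1 := sub_pos.2 hpq.symm.lt
  have hprod : (q - 1) * (p - 1) = 1 := by
    have := hpq.mul_eq_add
    nlinarith
  have hk := kap_pos hpq.pos hpq.symm.pos
  set κ := kap p q with hκ
  set s := q - 1 with hs
  refine ⟨κ * ((2 * s + 4 * s ^ 2) * ((p - 1) / κ) ^ 2),
    (κ / (p - 1)) * min (1 / 2) (1 / (2 * s)), by positivity, by positivity, ?_⟩
  intro t ht l m hl hm hlm
  set u : ℝ := (p - 1) * t / κ with hu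
  have hu0 : |u| ≤ min (1 / 2) (1 / (2 * s)) := by
    rw [hu, abs_div, abs_mul, abs_of_pos hp1, abs_of_pos hk, div_le_iff₀ hk]
    calc (p - 1) * |t| ≤ (p - 1) * ((κ / (p - 1)) * min (1 / 2) (1 / (2 * s))) := by gcongr
      _ = _ := by field_simp
  have hu1 : |u| ≤ 1 / 2 := hu0.trans (min_le_left _ _)
  have hu2 : 2 * s * |u| ≤ 1 := by
    have := hu0.trans (min_le_right _ _)
    calc 2 * s * |u| ≤ 2 * s * (1 / (2 * s)) := by gcongr
      _ = 1 := by field_simp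
  have hθ : 0 < 1 + u := by
    have := (abs_le.1 hu1).1
    linarith
  have h1 := young hpq hl hm hθ
  have h2 := pow_upper hq1 hu1 hu2
  have h3 : 1 - q = -(q - 1) := by ring
  rw [h3] at h1
  have h4 : κ * (1 + u) - (p - 1) * t = κ := by
    rw [hu]; field_simp; ring
  have h5 : κ * (s * u) = t := by
    calc κ * (s * u) = (s * (p - 1)) * t := by rw [hu]; field_simp
      _ = t := by rw [hprod, one_mul]
  have h6 : κ * (1 + u) ^ (-s) + t ≤ κ + κ * ((2 * s + 4 * s ^ 2) * u ^ 2) := by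
    have h7 : κ * (1 + u) ^ (-s) ≤ κ * (1 - s * u + (2 * s + 4 * s ^ 2) * u ^ 2) := by
      gcongr
    have h8 : κ * (1 - s * u + (2 * s + 4 * s ^ 2) * u ^ 2) =
        κ - κ * (s * u) + κ * ((2 * s + 4 * s ^ 2) * u ^ 2) := by ring
    rw [h8, h5] at h7
    linarith
  have h9 : κ * ((2 * s + 4 * s ^ 2) * u ^ 2) =
      κ * ((2 * s + 4 * s ^ 2) * ((p - 1) / κ) ^ 2) * t ^ 2 := by
    rw [hu]; ring
  rw [h9] at h6
  set D : ℝ := κ * ((2 * s + 4 * s ^ 2) * ((p - 1) / κ) ^ 2) * t ^ 2 with hD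
  have hD0 : 0 ≤ D := by positivity
  calc l ^ (1 / p) * m ^ (1 / q) + t * (m - (p - 1) * l)
      ≤ κ * ((1 + u) * l + (1 + u) ^ (-s) * m) + t * (m - (p - 1) * l) := by linarith
    _ = (κ * (1 + u) - (p - 1) * t) * l + (κ * (1 + u) ^ (-s) + t) * m := by ring
    _ = κ * l + (κ * (1 + u) ^ (-s) + t) * m := by rw [h4]
    _ ≤ κ * l + (κ + D) * m := by gcongr
    _ ≤ κ + D := by nlinarith

lemma root_lower {q s : ℝ} (hq : 0 < q) (hs : 0 ≤ s) (hs1 : s ≤ 1) :
    1 + s / (2 * q) ≤ (1 + s) ^ (1 / q) := by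
  have h1 : (1 + s / (2 * q)) ^ q ≤ 1 + s := by
    calc (1 + s / (2 * q)) ^ q ≤ (exp (s / (2 * q))) ^ q := by
          apply Real.rpow_le_rpow (by positivity) _ hq.le
          rw [add_comm]; exact Real.add_one_le_exp _
      _ = exp (s / 2) := by
          rw [← Real.exp_mul]
          congr 1
          field_simp
      _ ≤ 1 / (1 - s / 2) := by
          rw [le_div_iff₀ (by linarith)]
          have h2 : 1 - s / 2 ≤ exp (-(s / 2)) := by
            have := Real.add_one_le_exp (-(s / 2))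
            linarith
          calc exp (s / 2) * (1 - s / 2) ≤ exp (s / 2) * exp (-(s / 2)) := by gcongr
            _ = 1 := by rw [← Real.exp_add]; simp
      _ ≤ 1 + s := by
          rw [div_le_iff₀ (by linarith)]
          nlinarith
  have h2 : ((1 + s / (2 * q)) ^ q) ^ (1 / q) ≤ (1 + s) ^ (1 / q) :=
    Real.rpow_le_rpow (by positivity) h1 (by positivity)
  rwa [← Real.rpow_mul (by positivity), mul_one_div_cancel hq.ne', Real.rpow_one] at h2

lemma exists_small {r c K t₀ : ℝ} (hr : r < 2) (hc : 0 < c) (ht : 0 < t₀) :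
    ∃ η : ℝ, 0 < η ∧ η ≤ t₀ ∧ K * η ^ 2 < c * η ^ r := by
  have h2r : 0 < 2 - r := by linarith
  have hcont : Tendsto (fun x : ℝ => |K| * x ^ (2 - r)) (𝓝[>] 0) (𝓝 0) := by
    have h1 : ContinuousAt (fun x : ℝ => x ^ (2 - r)) 0 :=
      Real.continuousAt_rpow_const 0 (2 - r) (Or.inr h2r.le)
    have h2 : Tendsto (fun x : ℝ => |K| * x ^ (2 - r)) (𝓝 0) (𝓝 (|K| * (0 : ℝ) ^ (2 - r))) :=
      h1.tendsto.const_mul _
    rw [Real.zero_rpow h2r.ne', mul_zero] at h2
    exact h2.mono_left nhdsWithin_le_nhds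
  have he1 : ∀ᶠ x : ℝ in 𝓝[>] 0, |K| * x ^ (2 - r) < c := hcont.eventually (gt_mem_nhds hc)
  have he2 : ∀ᶠ x : ℝ in 𝓝[>] 0, x ∈ Set.Ioc 0 t₀ := Ioc_mem_nhdsGT ht
  obtain ⟨η, h1, h2⟩ := (he1.and he2).exists
  refine ⟨η, h2.1, h2.2, ?_⟩
  have hpos : 0 < η ^ r := Real.rpow_pos_of_pos h2.1 _
  have h3 : η ^ 2 = η ^ (2 - r) * η ^ r := by
    rw [← Real.rpow_add h2.1, sub_add_cancel]
    exact (Real.rpow_two η).symm
  calc K * η ^ 2 ≤ |K| * η ^ 2 := by gcongr; exact le_abs_self K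
    _ = (|K| * η ^ (2 - r)) * η ^ r := by rw [h3]; ring
    _ < c * η ^ r := by gcongr

/-- For `p ≠ 2` the normalization gains more than `η²`. -/
lemma exists_eta {p q : ℝ} (hpq : p.HolderConjugate q) (hp2 : p ≠ 2) {K t₀ : ℝ}
    (ht : 0 < t₀) :
    ∃ η : ℝ, 0 < η ∧ η ≤ t₀ ∧ kap p q + K * η ^ 2 <
      kap p q * ((1 + η ^ q) ^ (1 / q) * (1 + ((p - 1) * η) ^ p) ^ (1 / p)) := by
  have hp := hpq.pos
  have hq := hpq.symm.pos
  have hp1 : 0 < p - 1 := sub_pos.2 hpq.lt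
  have hk := kap_pos hp hq
  have hprod : (q - 1) * (p - 1) = 1 := by
    have := hpq.mul_eq_add
    nlinarith
  rcases lt_or_gt_of_ne hp2 with h | h
  · obtain ⟨η, h1, h2, h3⟩ := exists_small (r := p) (c := kap p q * ((p - 1) ^ p / (2 * p)))
      (K := K) (t₀ := min t₀ (1 / (p - 1))) h (by positivity) (by positivity)
    refine ⟨η, h1, h2.trans (min_le_left _ _), ?_⟩
    have h4 : (p - 1) * η ≤ 1 := by
      have := h2.trans (min_le_right _ _)
      calc (p - 1) * η ≤ (p - 1) * (1 / (p - 1)) := by gcongr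
        _ = 1 := by field_simp
    have h5 : ((p - 1) * η) ^ p ≤ 1 := Real.rpow_le_one (by positivity) h4 hp.le
    have h6 := root_lower hp (by positivity) h5
    have h7 : 1 ≤ (1 + η ^ q) ^ (1 / q) :=
      Real.one_le_rpow (by have := Real.rpow_pos_of_pos h1 q; linarith) (by positivity)
    calc kap p q + K * η ^ 2 < kap p q + kap p q * ((p - 1) ^ p / (2 * p)) * η ^ p := by linarith
      _ = kap p q * (1 * (1 + ((p - 1) * η) ^ p / (2 * p))) := by
          rw [Real.mul_rpow hp1.le h1.le]; ring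
      _ ≤ _ := by gcongr
  · have hq2 : q < 2 := by
      by_contra hcon
      push Not at hcon
      nlinarith
    obtain ⟨η, h1, h2, h3⟩ := exists_small (r := q) (c := kap p q * (1 / (2 * q)))
      (K := K) (t₀ := min t₀ 1) hq2 (by positivity) (by positivity)
    refine ⟨η, h1, h2.trans (min_le_left _ _), ?_⟩
    have h5 : η ^ q ≤ 1 := Real.rpow_le_one h1.le (h2.trans (min_le_right _ _)) hq.le
    have h6 := root_lower hq (by positivity) h5
    have h7 : 1 ≤ (1 + ((p - 1) * η) ^ p) ^ (1 / p) :=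
      Real.one_le_rpow (by
        have := Real.rpow_pos_of_pos (mul_pos hp1 h1) p; linarith) (by positivity)
    calc kap p q + K * η ^ 2 < kap p q + kap p q * (1 / (2 * q)) * η ^ q := by linarith
      _ = kap p q * ((1 + η ^ q / (2 * q)) * 1) := by ring
      _ ≤ _ := by gcongr

end Pool.Agent.H398R3.RO
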