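import Pool.Agent.H398R3.RankOneA

open Real Filter Topology
open scoped ENNReal ComplexConjugate

namespace Pool.Agent.H398R3.RO

variable {𝕜 : Type*} [RCLike 𝕜]

/-- The derivative of `t ↦ ‖a + t c‖ ^ p` at `0`. -/
lemma hasDerivAt_norm_line (a c : 𝕜) {p : ℝ} (hp : 1 < p) :
    HasDerivAt (fun t : ℝ => ‖a + (t : 𝕜) * c‖ ^ p)
      (p * (‖a‖ ^ (p - 2) * RCLike.re (conj a * c))) 0 := by
  have h1 : HasDerivAt (fun t : ℝ => a + (t : 𝕜) * c) c 0 := by
    have h2 : HasDerivAt (fun t : ℝ => t • c) ((1 : ℝ) • c) 0 := (hasDerivAt_id (0 : ℝ)).smul_const c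
    rw [one_smul] at h2
    have h3 := h2.const_add a
    refine h3.congr_of_eventuallyEq (Eventually.of_forall fun t => ?_)
    simp only [RCLike.real_smul_eq_coe_mul]
  have h4 := (hasFDerivAt_norm_rpow (a + ((0 : ℝ) : 𝕜) * c) hp).comp_hasDerivAt (0 : ℝ) h1
  refine h4.congr_deriv ?_
  simp only [RCLike.ofReal_zero, zero_mul, add_zero]
  have h5 : (inner ℝ a c : ℝ) = RCLike.re (conj a * c) := by
    rw [show (inner ℝ a c : ℝ) = RCLike.re (inner 𝕜 a c) from rfl, RCLike.inner_apply']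
  rw [_root_.smul_apply, innerSL_apply_apply, smul_eq_mul, h5, mul_assoc]

variable {ι : Type*} [DecidableEq ι] {p : ℝ≥0∞} [Fact (1 ≤ p)]

/-- Coordinate vectors of `ℓ_p`. -/
noncomputable abbrev sg (p : ℝ≥0∞) (i : ι) (c : 𝕜) : lp (fun _ : ι => 𝕜) p :=
  lp.single (E := fun _ : ι => 𝕜) p i c

/-- Changing one coordinate. -/
lemma norm_add_single (hp0 : 0 < p.toReal) (x : lp (fun _ : ι => 𝕜) p) (i : ι) (c : 𝕜) :
    ‖x + sg p i c‖ ^ p.toReal = ‖x‖ ^ p.toReal - ‖x i‖ ^ p.toReal +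
      ‖x i + c‖ ^ p.toReal := by
  have h1 := lp.hasSum_norm hp0 (x + sg p i c)
  have h2 := lp.hasSum_norm hp0 x
  have h3 : HasSum (fun j => ‖(x + sg p i c) j‖ ^ p.toReal - ‖x j‖ ^ p.toReal)
      (‖x i + c‖ ^ p.toReal - ‖x i‖ ^ p.toReal) := by
    have h4 := hasSum_single (f := fun j => ‖(x + sg p i c) j‖ ^ p.toReal -
      ‖x j‖ ^ p.toReal) i (by
        intro j hj
        have : (x + sg p i c) j = x j := by
          simp [Pi.single_eq_of_ne hj]
        rw [this, sub_self])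
    have h5 : (x + sg p i c) i = x i + c := by simp
    rw [h5] at h4
    exact h4
  have h6 := (h1.sub h2).unique h3
  linarith

/-- The norming functional of a unit vector of `ℓ_p` at a coordinate vector. -/
lemma functional_coord (hp1 : 1 < p.toReal) {x : lp (fun _ : ι => 𝕜) p}
    {f : lp (fun _ : ι => 𝕜) p →L[𝕜] 𝕜} (hx : ‖x‖ = 1) (hf : ‖f‖ = 1) (hfx : f x = 1) (i : ι) :
    f (sg p i 1) = (‖x i‖ ^ (p.toReal - 2) : ℝ) * conj (x i) := by
  have hp0 : 0 < p.toReal := by linarith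
  set P := p.toReal with hP
  have key : ∀ c : 𝕜, RCLike.re (f (sg p i c)) =
      ‖x i‖ ^ (P - 2) * RCLike.re (conj (x i) * c) := by
    intro c
    set ρ : ℝ := RCLike.re (f (sg p i c)) with hρ
    have hsm : ∀ t : ℝ, sg p i ((t : 𝕜) * c) = (t : 𝕜) • sg p i c := by
      intro t
      rw [sg, sg, ← lp.single_smul, smul_eq_mul]
    -- the auxiliary function
    set ψ : ℝ → ℝ := fun t => (1 - ‖x i‖ ^ P + ‖x i + (t : 𝕜) * c‖ ^ P) - (1 + t * ρ) ^ P with hψ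
    have hψ0 : ψ 0 = 0 := by simp [hψ]
    have hnonneg : ∀ᶠ t : ℝ in 𝓝 0, ψ 0 ≤ ψ t := by
      have hc : Tendsto (fun t : ℝ => 1 + t * ρ) (𝓝 0) (𝓝 (1 + 0 * ρ)) :=
        ((continuous_const.add (continuous_id.mul continuous_const)).tendsto 0)
      rw [zero_mul, add_zero] at hc
      have he : ∀ᶠ t : ℝ in 𝓝 0, 0 < 1 + t * ρ := hc.eventually (lt_mem_nhds one_pos)
      filter_upwards [he] with t ht
      rw [hψ0]
      have h1 : 1 + t * ρ ≤ ‖x + sg p i ((t : 𝕜) * c)‖ := by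
        calc 1 + t * ρ = RCLike.re (f (x + sg p i ((t : 𝕜) * c))) := by
              rw [map_add, hsm, map_smul, hfx, map_add, smul_eq_mul, RCLike.re_ofReal_mul,
                RCLike.one_re]
          _ ≤ ‖f (x + sg p i ((t : 𝕜) * c))‖ := RCLike.re_le_norm _
          _ ≤ ‖f‖ * ‖x + sg p i ((t : 𝕜) * c)‖ := f.le_opNorm _
          _ = _ := by rw [hf, one_mul]
      have h2 : (1 + t * ρ) ^ P ≤ ‖x + sg p i ((t : 𝕜) * c)‖ ^ P :=
        Real.rpow_le_rpow ht.le h1 hp0.le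
      rw [norm_add_single hp0, hx, Real.one_rpow] at h2
      show 0 ≤ (1 - ‖x i‖ ^ P + ‖x i + (t : 𝕜) * c‖ ^ P) - (1 + t * ρ) ^ P
      linarith
    have hd : HasDerivAt ψ (P * (‖x i‖ ^ (P - 2) * RCLike.re (conj (x i) * c)) - P * ρ) 0 := by
      have h1 := (hasDerivAt_norm_line (x i) c hp1).const_add (1 - ‖x i‖ ^ P)
      have h2 : HasDerivAt (fun t : ℝ => 1 + t * ρ) ρ 0 := by
        simpa using ((hasDerivAt_id (0 : ℝ)).mul_const ρ).const_add 1
      have h3 := h2.rpow_const (p := P) (Or.inl (by simp))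
      have h4 := h1.sub h3
      refine h4.congr_deriv ?_
      simp
      ring
    have hmin : IsLocalMin ψ 0 := hnonneg
    have h5 := hmin.hasDerivAt_eq_zero hd
    have h6 : P * ρ = P * (‖x i‖ ^ (P - 2) * RCLike.re (conj (x i) * c)) := by linarith
    exact mul_left_cancel₀ hp0.ne' h6
  have hlin : ∀ c : 𝕜, f (sg p i c) = c * f (sg p i 1) := by
    intro c
    have : sg p i c = c • sg p i (1 : 𝕜) := by
      rw [sg, sg, ← lp.single_smul, smul_eq_mul, mul_one]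
    rw [this, map_smul, smul_eq_mul]
  set ξ := f (sg p i 1) with hξ
  set η : 𝕜 := ((‖x i‖ ^ (P - 2) : ℝ) : 𝕜) * conj (x i) with hη
  have h7 : ∀ c : 𝕜, RCLike.re (c * (ξ - η)) = 0 := by
    intro c
    have h8 := key c
    rw [hlin] at h8
    have h9 : RCLike.re (c * η) = ‖x i‖ ^ (P - 2) * RCLike.re (conj (x i) * c) := by
      rw [hη, ← RCLike.re_ofReal_mul]
      congr 1
      ring
    rw [mul_sub, map_sub, h8, h9, sub_self]
  have h10 := h7 (conj (ξ - η))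
  rw [RCLike.conj_mul] at h10
  have h11 : ‖ξ - η‖ ^ 2 = 0 := by
    have : RCLike.re (((‖ξ - η‖ : ℝ) : 𝕜) ^ 2) = ‖ξ - η‖ ^ 2 := by
      rw [← RCLike.ofReal_pow, RCLike.ofReal_re]
    rw [← this, h10]
  have h12 : ξ - η = 0 := norm_eq_zero.1 (pow_eq_zero_iff two_ne_zero |>.1 h11)
  exact sub_eq_zero.1 h12

lemma coord_mul (hp1 : 1 < p.toReal) {x : lp (fun _ : ι => 𝕜) p}
    {f : lp (fun _ : ι => 𝕜) p →L[𝕜] 𝕜} (hx : ‖x‖ = 1) (hf : ‖f‖ = 1) (hfx : f x = 1) (i : ι) :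
    x i * f (sg p i 1) = ((‖x i‖ ^ p.toReal : ℝ) : 𝕜) := by
  rw [functional_coord hp1 hx hf hfx, mul_left_comm, RCLike.mul_conj, ← RCLike.ofReal_pow,
    ← RCLike.ofReal_mul]
  congr 1
  rcases eq_or_ne (x i) 0 with h | h
  · rw [h, norm_zero, Real.zero_rpow (by linarith : p.toReal ≠ 0)]
    simp
  · have : 0 < ‖x i‖ := norm_pos_iff.2 h
    rw [← Real.rpow_natCast, ← Real.rpow_add this]
    congr 1
    push_cast
    ring

lemma coord_norm (hp1 : 1 < p.toReal) {x : lp (fun _ : ι => 𝕜) p}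
    {f : lp (fun _ : ι => 𝕜) p →L[𝕜] 𝕜} (hx : ‖x‖ = 1) (hf : ‖f‖ = 1) (hfx : f x = 1) (i : ι) :
    ‖f (sg p i 1)‖ = ‖x i‖ ^ (p.toReal - 1) := by
  rw [functional_coord hp1 hx hf hfx, norm_mul, RCLike.norm_conj, RCLike.norm_ofReal,
    abs_of_nonneg (by positivity)]
  rcases eq_or_ne (x i) 0 with h | h
  · rw [h, norm_zero, mul_zero, Real.zero_rpow (by linarith : p.toReal - 1 ≠ 0)]
  · have : 0 < ‖x i‖ := norm_pos_iff.2 h
    have h1 : ‖x i‖ ^ (p.toReal - 1) = ‖x i‖ ^ (p.toReal - 2) * ‖x i‖ ^ (1 : ℝ) := by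
      rw [← Real.rpow_add this]; congr 1; ring
    rw [h1, Real.rpow_one]

end Pool.Agent.H398R3.RO
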